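import Pool.Agent.Y223.G.Stm10
import Pool.Agent.Y564.G.Gfr

/-!
Project G: fractions, constants and units of the charts with a second grading (S_GFRE).
-/

set_option autoImplicit false
set_option linter.unusedSectionVars false

namespace Pool.Agent.Y919.H

open Pool.Agent.Y223.G Pool.Agent.Y25.G Pool.Agent.Y564.G

section base

variable {k O K G : Type} [CommRing k] [IsDomain k] [CommRing O] [IsDomain O]
    [IsDedekindDomain O] [Field K] [Group G] [Finite G] [Algebra k O] [Algebra O K] [Algebra k K]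
    [IsScalarTower k O K] {ρ : G →* (K ≃ₐ[k] K)} {T : G →* (O ≃ₐ[k] O)}

/-- A nonzero constant which is a multiple of an element of the base. -/
theorem exists_nmE (hG : GE k O K G ρ T) {b : O} (hb : b ≠ 0) : ∃ (c : k) (r : O), c ≠ 0 ∧
    algebraMap k O c = b * r := by
  classical
  cases nonempty_fintype G
  obtain ⟨c, hc⟩ := hG.fix _ fun g => nm_act T g b
  refine ⟨c, ∏ g ∈ Finset.univ.erase 1, T g b, ?_, ?_⟩
  · rintro rfl
    rw [map_zero] at hc
    obtain ⟨g, -, hg⟩ := Finset.prod_eq_zero_iff.1 hc.symm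
    exact hb ((map_eq_zero_iff _ (T g).injective).1 hg)
  · rw [hc, nm_mul]

/-- A nonzero constant which is a multiple of a nonzero element of the localized base. -/
theorem exists_nmL (hG : GE k O K G ρ T) {s : k} (hs : s ≠ 0) {b : K} (hb : b ∈ OL O (K := K) s)
    (hb0 : b ≠ 0) : ∃ c : k, c ≠ 0 ∧ ∃ r ∈ OL O (K := K) s, algebraMap k K c = b * r := by
  have hs0 : algebraMap k K s ≠ 0 := (map_ne_zero_iff _ hG.injk).2 hs
  obtain ⟨n, y, hy⟩ := hb
  have hy0 : y ≠ 0 := by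
    rintro rfl
    rw [map_zero] at hy
    rcases mul_eq_zero.1 hy with h | h
    · exact pow_ne_zero _ hs0 h
    · exact hb0 h
  obtain ⟨c, r, hc, hcr⟩ := exists_nmE hG hy0
  refine ⟨c, hc, algebraMap k K s ^ n * algebraMap O K r, mul_mem
    (pow_mem ((OL O (K := K) s).algebraMap_mem s) n) (OL_alg r), ?_⟩
  rw [IsScalarTower.algebraMap_apply k O K, hcr, map_mul, ← hy]
  ring

end base

section quot

variable {k O M Y K G Ω : Type} [CommRing k] [IsDomain k] [CommRing O] [IsDomain O]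
  [IsDedekindDomain O] [Field M] [Field Y] [Field K] [Group G] [Finite G] [MulAction G Ω]
  [Algebra k O] [Algebra O K] [Algebra k K] [IsScalarTower k O K] [Algebra M K] [Algebra k Y]
  {ι : Y →ₐ[k] K} {ρ : G →* (K ≃ₐ[k] K)} {T : G →* (O ≃ₐ[k] O)} {m : ℕ}
  {z : Ω → Fin (m + 1) → K}

/-- Every element of `K` is a quotient of elements of the chart. -/
theorem CG_quotE (hG : GHE k O M Y K G Ω ι ρ T m z) (s : k) {d : ℕ} (hd : 1 ≤ d) {Φ : Ω → K}
    (hΦ : Fm k K G Ω ρ z d Φ) (x : K) :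
    ∃ c c', c ∈ CG (OL O (K := K) s) z d Φ ∧ c' ∈ CG (OL O (K := K) s) z d Φ ∧ c' ≠ 0 ∧
      x = c / c' := by
  let S : IntermediateField M K :=
    { carrier := {x | ∃ c c', c ∈ CG (OL O (K := K) s) z d Φ ∧
        c' ∈ CG (OL O (K := K) s) z d Φ ∧ c' ≠ 0 ∧ x = c / c'}
      mul_mem' := by
        rintro x y ⟨a, a', ha, ha', h0, rfl⟩ ⟨b, b', hb, hb', h0', rfl⟩
        refine ⟨a * b, a' * b', mul_mem ha hb, mul_mem ha' hb', mul_ne_zero h0 h0', ?_⟩
        rw [div_mul_div_comm]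
      add_mem' := by
        rintro x y ⟨a, a', ha, ha', h0, rfl⟩ ⟨b, b', hb, hb', h0', rfl⟩
        refine ⟨a * b' + a' * b, a' * b', add_mem (mul_mem ha hb') (mul_mem ha' hb),
          mul_mem ha' hb', mul_ne_zero h0 h0', ?_⟩
        rw [div_add_div _ _ h0 h0']
      algebraMap_mem' := by
        intro r
        obtain ⟨a, b, hb, h⟩ := hG.lf r
        have hb0 : algebraMap O K b ≠ 0 := (map_ne_zero_iff _ hG.inj).2 hb
        exact ⟨algebraMap O K a, algebraMap O K b, CG_OL (OL_alg a), CG_OL (OL_alg b), hb0,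
          by rw [eq_div_iff hb0, h]⟩
      inv_mem' := by
        rintro x ⟨a, a', ha, ha', h0, rfl⟩
        by_cases h : a = 0
        · refine ⟨0, 1, zero_mem _, one_mem _, one_ne_zero, ?_⟩
          rw [h]
          simp
        · exact ⟨a', a, ha', ha, h, inv_div _ _⟩ }
  have hle : IntermediateField.adjoin M {y : K | ∃ ω j, y = z ω j / z ω 0} ≤ S := by
    rw [IntermediateField.adjoin_le_iff]
    rintro _ ⟨ω, j, rfl⟩
    have h1 : z ω j * z ω 0 ^ (d - 1) ∈ MN (z ω) d := by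
      have := MN_mul (z ω) (MN_z (z ω) j) (MN_pow_z (z ω) 0 (d - 1))
      rwa [Nat.add_sub_cancel' hd] at this
    have hF : Φ ω ≠ 0 := hΦ.ne ω
    have h0 : z ω 0 ^ d / Φ ω ≠ 0 := div_ne_zero (pow_ne_zero _ (hG.z0 ω 0)) hF
    refine ⟨z ω j * z ω 0 ^ (d - 1) / Φ ω, z ω 0 ^ d / Φ ω, CG_gen ω h1,
      CG_gen ω (MN_pow_z (z ω) 0 d), h0, ?_⟩
    obtain ⟨e, rfl⟩ : ∃ e, d = e + 1 := ⟨d - 1, by omega⟩
    rw [Nat.add_sub_cancel]
    have hz : z ω 0 ≠ 0 := hG.z0 ω 0
    field_simp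
    ring
  rw [hG.gen] at hle
  exact hle IntermediateField.mem_top

/-- A common invariant denominator. -/
theorem exists_den (hG : GHE k O M Y K G Ω ι ρ T m z) (s : k) {d : ℕ} (hd : 1 ≤ d) {Φ : Ω → K}
    (hΦ : Fm k K G Ω ρ z d Φ) (S : Finset ℤ) (f : ℤ → K) :
    ∃ c : Y, c ≠ 0 ∧ ι c ∈ CG (OL O (K := K) s) z d Φ ∧
      ∀ b ∈ S, ι c * f b ∈ CG (OL O (K := K) s) z d Φ := by
  classical
  cases nonempty_fintype G
  induction S using Finset.induction_on with
  | empty => exact ⟨1, one_ne_zero, by rw [map_one]; exact one_mem _, fun b hb => by simp at hb⟩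
  | insert a S ha ih =>
    obtain ⟨c, hc0, hc, hcS⟩ := ih
    obtain ⟨e, e', he, he', h0, hx⟩ := CG_quotE hG s hd hΦ (f a)
    obtain ⟨y', hy'⟩ := (hG.fixK _).1 fun g => nm_act ρ g e'
    have hact : ∀ g, ρ g e' ∈ CG (OL O (K := K) s) z d Φ := fun g =>
      CG_act hG.com hG.eqv hΦ g e' he'
    have hN0 : (∏ g, ρ g e') ≠ 0 := by
      rw [Finset.prod_ne_zero_iff]
      exact fun g _ => (map_ne_zero_iff _ (ρ g).injective).2 h0
    have hy0 : y' ≠ 0 := by
      rintro rfl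
      rw [map_zero] at hy'
      exact hN0 hy'.symm
    have hyC : ι y' ∈ CG (OL O (K := K) s) z d Φ := by
      rw [hy']
      exact prod_mem fun g _ => hact g
    have hyf : ι y' * f a ∈ CG (OL O (K := K) s) z d Φ := by
      rw [hy', nm_mul, hx]
      have h1 : (e' * ∏ g ∈ Finset.univ.erase 1, ρ g e') * (e / e') =
          e * ∏ g ∈ Finset.univ.erase 1, ρ g e' := by
        field_simp
      rw [h1]
      exact mul_mem he (prod_mem fun g _ => hact g)
    refine ⟨c * y', mul_ne_zero hc0 hy0, ?_, ?_⟩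
    · rw [map_mul]; exact mul_mem hc hyC
    · intro b hb
      rw [Finset.mem_insert] at hb
      rw [map_mul]
      rcases hb with rfl | hb
      · rw [mul_assoc]; exact mul_mem hc hyf
      · rw [mul_comm (ι c), mul_assoc]; exact mul_mem hyC (hcS b hb)

end quot

/-- The algebra of a chart is graded. -/
theorem GRG_gr {k O K G Ω : Type} [CommRing k] [CommRing O] [Field K] [Group G] [Algebra k O]
    [Algebra O K] [Algebra k K] [IsScalarTower k O K] (ρ : G →* (K ≃ₐ[k] K)) {m : ℕ}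
    (z : Ω → Fin (m + 1) → K) (s : k) {N : Type} (𝔔 : N → Ideal (OL O (K := K) s)) (p l : N → ℕ)
    (τ : N → G) (d : ℕ) (Φ : Ω → K) : Gr (GRG O ρ z s 𝔔 p l τ d Φ) := by
  intro f hf e
  unfold GRG RG at hf ⊢
  rw [Algebra.mem_inf, Algebra.mem_iInf] at hf ⊢
  exact ⟨RR_gr f hf.1 e, fun i => RR_gr f (hf.2 i) e⟩

/-- **The field of fractions of the charts, constants and units.** -/
theorem t_GFRE : S_RES2 → S_GFRE := by
  classical
  intro hRES k O M Y Y₂ K K₂ G Ω _ _ _ _ _ _ _ _ _ _ _ _ _ _ _ _ _ _ _ _ _ _ _ ι ι₂ εY ε ρ ρ₂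
    hE T m z hG s _ Tb N _ 𝔔 p l τ π hs hL d Φ hd hΦ R hR
  cases nonempty_fintype G
  cases nonempty_fintype N
  have hπ0 : (π : K) ≠ 0 := fun h => hL.p0 (Subtype.ext h)
  have hp : ∀ i, 0 < p i := fun i => (hL.ty i).1.pp.pos
  have hmem : ∀ (e b : ℤ) (y : Y), hm e (εY (hm b y)) ∈ R ↔
      hm e (ι y * (π : K) ^ (-b)) ∈ GRG O ρ z s 𝔔 p l τ d Φ := by
    intro e b y
    rw [hR]
    exact (hRES k Y Y₂ K K₂ G ι ι₂ εY ε ρ ρ₂ hE hG.fixK (GRG O ρ z s 𝔔 p l τ d Φ)
      (GRG_gr ρ z s 𝔔 p l τ d Φ) π hπ0).2 e b y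
  have hmem0 : ∀ (b : ℤ) (y : Y), ι y * (π : K) ^ (-b) ∈ CG (OL O (K := K) s) z d Φ →
      hm 0 (εY (hm b y)) ∈ R := fun b y h => (hmem 0 b y).2 (mem_GRG hp h)
  refine ⟨?_, ?_, ?_, ?_, ?_⟩
  · intro x
    obtain ⟨u, u', hu', hx⟩ := hE.eY.frac x
    have key : ∀ v : LP Y, ∃ c : Y, c ≠ 0 ∧ ι c ∈ CG (OL O (K := K) s) z d Φ ∧
        ∀ c' : Y, ι c' ∈ CG (OL O (K := K) s) z d Φ → hm 0 (εY (hm 0 (c * c') * v)) ∈ R := by
      intro v
      obtain ⟨c, hc0, hc, hcS⟩ := exists_den hG s hd hΦ v.coeff.support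
        fun b => ι (v.coeff b) * (π : K) ^ (-b)
      refine ⟨c, hc0, hc, fun c' hc' => ?_⟩
      have h1 : hm 0 (εY (hm 0 (c * c') * v)) =
          ∑ b ∈ v.coeff.support, hm 0 (εY (hm b (c * c' * v.coeff b))) := by
        conv_lhs => rw [eq_sum_hm v]
        rw [Finset.mul_sum, map_sum]
        have h2 : ∀ w : Y₂, hm 0 w = zer k Y₂ w := fun _ => rfl
        rw [h2, map_sum]
        refine Finset.sum_congr rfl fun b _ => ?_
        rw [hm_mul, zero_add]
        rfl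
      rw [h1]
      refine sum_mem fun b hb => hmem0 _ _ ?_
      have h3 : ι (c * c' * v.coeff b) * (π : K) ^ (-b) =
          ι c' * (ι c * (ι (v.coeff b) * (π : K) ^ (-b))) := by
        rw [map_mul, map_mul]; ring
      rw [h3]
      exact mul_mem hc' (hcS b hb)
    obtain ⟨c, hc0, hc, hcu⟩ := key u
    obtain ⟨c', hc0', hc', hcu'⟩ := key u'
    have hcc : εY (hm 0 (c * c')) ≠ 0 := by
      rw [Ne, map_eq_zero_iff _ hE.eY.inj]
      exact hm_ne_zero (mul_ne_zero hc0 hc0')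
    refine ⟨εY (hm 0 (c * c') * u), εY (hm 0 (c * c') * u'), hcu c' hc', ?_, ?_, ?_⟩
    · have := hcu' c hc
      rwa [mul_comm c' c] at this
    · rw [map_mul]
      exact mul_ne_zero hcc ((map_ne_zero_iff _ hE.eY.inj).2 hu')
    · rw [map_mul, map_mul, mul_div_mul_left _ _ hcc, hx]
  · have hone : ∀ i, ∃ c : k, c ≠ 0 ∧ algebraMap k (OL O (K := K) s) c ∈ 𝔔 i := by
      intro i
      obtain ⟨e, he, he0⟩ := Submodule.exists_mem_ne_zero_of_ne_bot (hL.ne i)
      obtain ⟨c, hc, r, hr, hcr⟩ := exists_nmL hG.toGE hs e.2 (fun h => he0 (Subtype.ext h))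
      refine ⟨c, hc, ?_⟩
      have h1 : algebraMap k (OL O (K := K) s) c = e * ⟨r, hr⟩ := Subtype.ext hcr
      rw [h1]
      exact Ideal.mul_mem_right _ _ he
    choose c hc hcm using hone
    have hall : ∀ i, algebraMap k (OL O (K := K) s) (∏ i, c i) ∈ 𝔔 i := by
      intro i
      obtain ⟨w, hw⟩ := Finset.dvd_prod_of_mem c (Finset.mem_univ i)
      rw [hw, map_mul]
      exact Ideal.mul_mem_right _ _ (hcm i)
    refine ⟨∏ i, c i, Finset.prod_ne_zero_iff.2 fun i _ => hc i, ?_⟩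
    have h0 : algebraMap k Y₂ (∏ i, c i) = εY (hm 0 (algebraMap k Y (∏ i, c i))) := by
      rw [← algebraMap_LP, AlgHom.commutes]
    rw [h0, hmem, AlgHom.commutes, neg_zero, zpow_zero, mul_one]
    have h1 : algebraMap k K (∏ i, c i) = algebraMap (OL O (K := K) s) K
        (algebraMap k (OL O (K := K) s) (∏ i, c i)) := rfl
    rw [h1]
    unfold GRG RG
    rw [Algebra.mem_inf, Algebra.mem_iInf]
    exact ⟨RR_e Submodule.mem_top, fun i => RR_e (hall i)⟩
  · obtain ⟨c, hc, r, hr, hcr⟩ := exists_nmL hG.toGE hs π.2 hπ0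
    refine ⟨c, hc, hmem0 _ _ ?_⟩
    rw [AlgHom.commutes, hcr, mul_comm (π : K) r, mul_assoc, zpow_neg, zpow_one,
      mul_inv_cancel₀ hπ0, mul_one]
    exact CG_OL hr
  · refine hmem0 _ _ ?_
    rw [map_one, one_mul, neg_neg, zpow_one]
    exact CG_OL π.2
  · obtain ⟨w, hw⟩ := (hG.fixK _).1 fun g => nm_act ρ g (π : K)
    have hw0 : w ≠ 0 := by
      rintro rfl
      rw [map_zero] at hw
      have : (∏ g, ρ g (π : K)) ≠ 0 := by
        rw [Finset.prod_ne_zero_iff]
        exact fun g _ => (map_ne_zero_iff _ (ρ g).injective).2 hπ0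
      exact this hw.symm
    choose v hv using hL.wi
    have hv' : ∀ g, ρ g (π : K) = (v g : K) * π := by
      intro g
      have := hL.com g π
      rw [hv g] at this
      exact this
    have hinv : ∀ g, ∃ r : OL O (K := K) s, (r : K) * v g = 1 := by
      intro g
      refine ⟨Tb g (v g⁻¹), ?_⟩
      have h1 : Tb g (Tb g⁻¹ π) = π := by
        have : Tb g (Tb g⁻¹ π) = Tb (g * g⁻¹) π := by rw [map_mul]; rfl
        rw [this, mul_inv_cancel, map_one]; rfl
      rw [hv g⁻¹, map_mul, hv g] at h1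
      have h2 : (Tb g (v g⁻¹) : K) * v g * π = 1 * π := by
        have := congrArg Subtype.val h1
        change (Tb g (v g⁻¹) : K) * ((v g : K) * π) = π at this
        rw [one_mul, mul_assoc]; exact this
      exact mul_right_cancel₀ hπ0 h2
    choose r hr using hinv
    have hW : ι w = (∏ g, (v g : K)) * (π : K) ^ (Nat.card G) := by
      rw [hw, Finset.prod_congr rfl fun g _ => hv' g, Finset.prod_mul_distrib, Finset.prod_const,
        Finset.card_univ, Nat.card_eq_fintype_card]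
    have hrv : (∏ g, (r g : K)) * (∏ g, (v g : K)) = 1 := by
      rw [← Finset.prod_mul_distrib]
      exact Finset.prod_eq_one fun g _ => hr g
    have hV0 : (∏ g, (v g : K)) ≠ 0 := right_ne_zero_of_mul_eq_one hrv
    refine ⟨w, hw0, hmem0 _ _ ?_, hmem0 _ _ ?_⟩
    · rw [hW, zpow_neg, zpow_natCast, mul_assoc, mul_inv_cancel₀ (pow_ne_zero _ hπ0), mul_one]
      exact CG_OL (prod_mem fun g _ => (v g).2)
    · rw [map_inv₀, hW, neg_neg, zpow_natCast, mul_inv, mul_assoc,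
        inv_mul_cancel₀ (pow_ne_zero _ hπ0), mul_one, ← eq_inv_of_mul_eq_one_left hrv]
      exact CG_OL (prod_mem fun g _ => (r g).2)

end Pool.Agent.Y919.H
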